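import Mathlib
import Pool.Agent.Q78.GW.Chain

set_option autoImplicit false

/-!
# Forms with larger multiplicities make the conditions independent

Let `r ≥ 1`, let `m 1, …, m k` be arbitrary multiplicities and let `d` be any degree. Suppose that
there is a nonzero form of degree `d` which has multiplicity at least `v i ≥ m i` at `k` general
points of `ℙ^r`.

* If `v i ≥ m i + m j - 1` for all `i ≠ j`, then the fat points of multiplicities `m i` impose
  independent conditions on the forms of degree `d`. In particular `α (I^(2m-1)) ≥ reg (I^(m)) - 1`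
  for the ideal `I` of general points of `ℙ^r`. For two points this is the best possible bound.
* If only `v i ≥ m i + c`, then the superabundance is at most the sum of the numbers
  `binom (ν y - binom (c + r - 1) (r - 1) + 1) 2` over the different multiplicities `y`, where
  `ν y = binom (y + r - 2) (r - 1)` is the number of the conditions by which a point of
  multiplicity `y` exceeds a point of multiplicity `y - 1`.

The proof: at a generic point the leading forms of a nonempty system are a nonzero space of forms in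
`r` variables, and the linear vector fields of `ℙ^r` which vanish at the point map it into the space
of the leading forms for the multiplicities lowered by one at all the other points; after `j` steps
the dimension is at least that of the space of the forms of degree `j` in `r` variables.

The points are `(1 : P i 0 : … : P i (r - 1))`.
-/

namespace Pool.Agent.Results.MP_1dafdd_ag.EffectiveImpliesIndependent

open MvPolynomial

/-- The dimension of the space of the forms of degree `d` in `r + 1` variables which vanish to order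
at least `m i` at the point `(1 : P i 0 : … : P i (r - 1))` for every `i`. -/
noncomputable def dimForms {r k : ℕ} (m : Fin k → ℕ) (P : Fin k → Fin r → ℂ) (d : ℕ) : ℤ :=
  (Module.finrank ℂ
    ↥(MvPolynomial.homogeneousSubmodule (Fin (r + 1)) ℂ d ⊓
      Submodule.restrictScalars ℂ
        (⨅ i : Fin k, (Ideal.span (Set.range fun j : Fin r =>
          (X j.succ - C (P i j) * X 0 : MvPolynomial (Fin (r + 1)) ℂ))) ^ (m i))) : ℤ)

/-- The naive dimension of this space. -/
def naive (r : ℕ) {k : ℕ} (m : Fin k → ℕ) (d : ℕ) : ℤ :=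
  (Nat.choose (d + r) r : ℤ) - ∑ i, (Nat.choose (m i + r - 1) r : ℤ)

/-- The sum of the numbers `binom (ν y - binom (c + r - 1) (r - 1) + 1) 2` over `y ∈ Y`, where
`ν y = binom (y + r - 2) (r - 1)` and a negative difference is replaced by zero. -/
def bound (r c : ℕ) (Y : Finset ℕ) : ℤ :=
  ∑ y ∈ Y, (Nat.choose (Nat.choose (y + r - 2) (r - 1) - Nat.choose (c + r - 1) (r - 1) + 1) 2 : ℤ)

theorem result (r k : ℕ) (hr : 1 ≤ r) (m v : Fin k → ℕ) (hmv : ∀ i, m i ≤ v i) (d : ℕ) :
    ∃ F : MvPolynomial (Fin k × Fin r) ℂ, F ≠ 0 ∧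
      ∀ P : Fin k → Fin r → ℂ,
        MvPolynomial.eval (fun ij : Fin k × Fin r => P ij.1 ij.2) F ≠ 0 →
        (dimForms v P d ≠ 0 ∨ 0 < naive r v d) →
        ((∀ i j, i ≠ j → m i = 0 ∨ m j = 0 ∨ m i + m j ≤ v i + 1) →
          dimForms m P d = naive r m d) ∧
        (∀ (c : ℕ) (Y : Finset ℕ), (∀ i, m i = 0 ∨ m i + c ≤ v i) →
          (∀ i, 2 ≤ m i → m i ∈ Y ∨ m i + 1 ∈ Y) →
          dimForms m P d ≤ naive r m d + bound r c Y) := by
  obtain ⟨E, rfl⟩ : ∃ E, r = E + 1 := ⟨r - 1, by omega⟩
  obtain ⟨K0, i1, i2, P0, F, hP0, hF, hF'⟩ := Q78.GW.general_dim E k m d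
  obtain ⟨K1, i3, i4, P1, G, hP1, hG, hG'⟩ := Q78.GW.general_dim E k v d
  have e1 : ∀ a : ℕ, a + (E + 1) - 1 = a + E := fun a => by omega
  have e2 : E + 1 - 1 = E := by omega
  have e3 : d + (E + 1) = d + E + 1 := by omega
  have hnv : ∀ w : Fin k → ℕ, naive (E + 1) w d = Q78.GW.nv E w d := by
    intro w
    unfold naive Q78.GW.nv
    simp only [e1, e3]
  refine ⟨F * G, mul_ne_zero hF hG, fun P hP hyp => ?_⟩
  rw [map_mul] at hP
  have hdim : ∀ w : Fin k → ℕ, dimForms w P d =
      (Module.finrank ℂ ↥(Pool.Agent.H932R5.Vd (E := E) d w P) : ℤ) := fun w => rfl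
  have hm : dimForms m P d = (Module.finrank K0 ↥(Q78.GW.Lw d P0 m) : ℤ) := by
    rw [hdim, hF' P (left_ne_zero_of_mul hP)]
  have hv : dimForms v P d = (Module.finrank K0 ↥(Q78.GW.Lw d P0 v) : ℤ) := by
    rw [hdim, hG' P (right_ne_zero_of_mul hP), Q78.GW.gen_eq hP1 hP0 v d]
  have hne : Q78.GW.Lw d P0 v ≠ ⊥ := by
    intro h0
    have h1 : (Module.finrank K0 ↥(Q78.GW.Lw d P0 v) : ℤ) = 0 := by
      rw [h0, finrank_bot]
      rfl
    rcases hyp with h2 | h2
    · exact h2 (by rw [hv, h1])
    · have h3 := Q78.GW.dim_eq d P0 v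
      have h4 := Q78.GW.hs_nonneg d P0 v
      rw [hnv] at h2
      linarith
  have hle : m ≤ v := hmv
  have hd := Q78.GW.dim_eq d P0 m
  rw [hm, hnv]
  refine ⟨fun h => ?_, fun c Y hc hY => ?_⟩
  · rw [hd, Q78.GW.hs_zero_of_shift hP0 hne hle (fun i j hji => ?_), add_zero]
    rcases h j i hji with h1 | h1 | h1
    · exact Or.inr (Or.inl h1)
    · exact Or.inl h1
    · exact Or.inr (Or.inr h1)
  · have h1 := Q78.GW.hs_le_ball hP0 d hne hle c hc Y hY
    rw [hd]
    refine add_le_add le_rfl (h1.trans (le_of_eq ?_))
    unfold bound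
    refine Finset.sum_congr rfl fun y _ => ?_
    rw [e2, e1]
    rcases Nat.eq_zero_or_pos y with h | h
    · subst h
      have h2 : 0 < (c + E).choose E := Nat.choose_pos (by omega)
      have h3 : (0 - 1 + E).choose E = 1 := by
        rw [Nat.zero_sub, zero_add, Nat.choose_self]
      have h4 : (0 + (E + 1) - 2).choose E ≤ 1 := by
        rcases Nat.eq_zero_or_pos E with h5 | h5
        · subst h5
          exact le_rfl
        · rw [Nat.choose_eq_zero_of_lt (by omega)]
          exact Nat.zero_le _
      rw [h3]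
      congr 2
      omega
    · have e4 : y + (E + 1) - 2 = y - 1 + E := by omega
      rw [e4]

end Pool.Agent.Results.MP_1dafdd_ag.EffectiveImpliesIndependent
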