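import Pool.Agent.Q54.FM.Inp
import Pool.Agent.Q54.FM.Cor
import Pool.Agent.Results.MP_b56c98_ag.PlaneAllDegrees

set_option autoImplicit false

/-!
# Equal multiplicities in the plane: maximal conditions, for all numbers of points at once

For a positive proportion of the multiplicities `m`, the tuples `(2, k, m, ..., m, d)` of Q1 with `k ≥ 10` are settled
completely: for EVERY number `k ≥ 10` of general points of the plane, all of multiplicity `m`, and EVERY degree `d` the
fat point scheme imposes maximal conditions in degree `d`. (Proof: below, `r` denotes the number of points.) This holds for a positive proportion `c` of the multiplicities in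

* the values `f(n)`, `n < M`, of ANY polynomial `f` with integer coefficients of degree between `1` and `K` whose leading
  coefficient is at most `M ^ κ` (all intervals of length `M` wherever they are, arithmetic progressions with differences
  `≤ M ^ κ`, squares, `k`-th powers, ...),
* the numbers `b p + h`, `p ≤ M` prime, `p ≡ a mod d` with `|b|, d ≤ M ^ κ` (prime multiplicities, multiplicities `p + h`
  with `h` of any size, ...),

up to an error `M ^ (1 - κ)`; `c` is absolute, while `κ > 0` and the lower bound for `M` depend on `K` only. In particular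
these `m` have positive lower density in the natural numbers and in the primes.

Proof. If `m` is exceptional for `r < 37`, then an integer lies in a window of length less than one around
`√r (m + 1 / 2) - 3 / 2`, or (for `r = 11, 15`) a multiple of three lies in a window of length less than `1 / 2`; for
`r ≥ 37`, for `r = 13, 21` and for the squares there are no exceptions (starting files). The vectors of the multiples of
`√r`, `r` in different square classes, by the elements of the sequences are jointly uniformly distributed modulo one with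
a power saving. This follows from the bounds for exponential sums of the library of the team (`Pool.Agent.Q29.Eqd`) and
from a lower bound `|v_1 √r_1 + ... + v_s √r_s - a| ≥ c / H ^ D` for integers of absolute value at most `H`, proved with
the determinant of the multiplication on the multiquadratic field (`Pool.Agent.Q54.FM.liou`). The 22 numbers `r < 37` which have
to be considered lie in 20 square classes; for the two pairs `12, 27` and `18, 32` the windows are compared numerically.
-/

namespace Pool.Agent.Results.MP_1dafdd_ag.EqualMultiplicitiesInThePlane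

open MvPolynomial
open scoped LinearAlgebra.Projectivization
open Pool.Agent.H350R3.MG Pool.Agent.TH3.IR

/-- `V_d(Γ)`: the forms of degree `d` vanishing to order at least `m i` at the `i`-th point. -/
noncomputable def forms {r k : ℕ} (d : ℕ) (m : Fin k → ℕ) (P : Fin k → ℙ ℂ (Fin (r + 1) → ℂ)) :
    Submodule ℂ (MvPolynomial (Fin (r + 1)) ℂ) :=
  homogeneousSubmodule (Fin (r + 1)) ℂ d ⊓
    Submodule.restrictScalars ℂ (⨅ i, primeIdeal (P i) ^ m i : Ideal (MvPolynomial (Fin (r + 1)) ℂ))

/-- The naive count `binom (d + r) r - ∑ i, binom (m i + r - 1) r`. -/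
def naive (r : ℕ) {k : ℕ} (d : ℕ) (m : Fin k → ℕ) : ℤ :=
  ((d + r).choose r : ℤ) - ∑ i, ((m i + r - 1).choose r : ℤ)

/-- `Γ` imposes maximal conditions in degree `d`. -/
def ImposesMaximalConditions {r k : ℕ} (d : ℕ) (m : Fin k → ℕ)
    (P : Fin k → ℙ ℂ (Fin (r + 1) → ℂ)) : Prop :=
  (Module.finrank ℂ (forms d m P) : ℤ) = max 0 (naive r d m)

/-- `k` general points of the plane (one nonempty open set of `k`-tuples for all degrees), all of multiplicity `m`, impose
maximal conditions in EVERY degree `d`. -/
def AllDegrees (k m : ℕ) : Prop :=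
  Generally (fun P : Fin k → ℙ ℂ (Fin (2 + 1) → ℂ) => ∀ d : ℕ, ImposesMaximalConditions d (fun _ => m) P)

lemma allDegrees_of (k m : ℕ) (_hr : 10 ≤ k) (_hm : 0 < m) (h : Pool.Agent.Q54.FM.Gd k m) : AllDegrees k m := by
  obtain ⟨F, hF, hF'⟩ := h
  refine generally_of_affine (F.map (algebraMap ℚ ℂ)) (H932R3.map_ne_zero_of hF) fun P hv hP d => ?_
  rw [MvPolynomial.eval_map] at hP
  have h2 := hF' P hP d
  unfold Pool.Agent.H932R3.ExpDim at h2
  rw [Finset.sum_const, Finset.card_univ, Fintype.card_fin, smul_eq_mul] at h2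
  have h3 : Module.finrank ℂ (forms d (fun _ => m) fun i =>
      Projectivization.mk ℂ (Fin.cons 1 (P i) : Fin (2 + 1) → ℂ) (hv i)) =
      (d + 2).choose 2 - k * (m + 1).choose 2 :=
    (Pool.Agent.Results.MP_b56c98_ag.PlaneAllDegrees.finrank_eq (m := m) (d := d) P hv).trans h2
  unfold ImposesMaximalConditions naive
  rw [h3, Finset.sum_const, Finset.card_univ, Fintype.card_fin, nsmul_eq_mul, show m + 2 - 1 = m + 1 by omega]
  rcases le_total ((d + 2).choose 2) (k * (m + 1).choose 2) with h4 | h4
  · rw [Nat.sub_eq_zero_of_le h4, max_eq_left]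
    · rfl
    · have : (((d + 2).choose 2 : ℕ) : ℤ) ≤ ((k * (m + 1).choose 2 : ℕ) : ℤ) := by exact_mod_cast h4
      push_cast at this
      linarith
  · rw [Nat.cast_sub h4, max_eq_right]
    · push_cast
      ring
    · have : ((k * (m + 1).choose 2 : ℕ) : ℤ) ≤ (((d + 2).choose 2 : ℕ) : ℤ) := by exact_mod_cast h4
      push_cast at this
      linarith

/-- `SparseExceptions κ K M η P`: the property `P` fails rarely in polynomial sequences and along primes.
1. For every polynomial `f` with integer coefficients of degree between `1` and `K`, the leading coefficient being at most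
   `M ^ κ` in absolute value (the other coefficients are arbitrary), `P (f n)` fails for at most
   `η M + M ^ (1 - κ)` of the natural numbers `n < M` with `f n > 0`.
2. For all integers `b ≠ 0` and `h` and natural numbers `d ≥ 1` and `a`, `|b|, d ≤ M ^ κ`, `P (b p + h)` fails for at most
   `η T + M ^ (1 - κ)` of the `T` primes `p ≤ M` with `p ≡ a mod d` (only those with `b p + h > 0` are counted). -/
def SparseExceptions (κ : ℝ) (K M : ℕ) (η : ℝ) (P : ℕ → Prop) : Prop :=
  (∀ f : Polynomial ℤ, 1 ≤ f.natDegree → f.natDegree ≤ K → |(f.leadingCoeff : ℝ)| ≤ (M : ℝ) ^ κ →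
    ({n : ℕ | n < M ∧ 0 < f.eval (n : ℤ) ∧ ¬ P (f.eval (n : ℤ)).toNat}.ncard : ℝ) ≤
      η * M + (M : ℝ) ^ (1 - κ)) ∧
  (∀ b h : ℤ, b ≠ 0 → |(b : ℝ)| ≤ (M : ℝ) ^ κ → ∀ d a : ℕ, 1 ≤ d → (d : ℝ) ≤ (M : ℝ) ^ κ →
    ({p : ℕ | p ≤ M ∧ p.Prime ∧ p ≡ a [MOD d] ∧ 0 < b * p + h ∧ ¬ P (b * p + h).toNat}.ncard : ℝ) ≤
      η * ({p : ℕ | p ≤ M ∧ p.Prime ∧ p ≡ a [MOD d]}.ncard : ℝ) + (M : ℝ) ^ (1 - κ))

/-- There is a constant `c > 0` such that:
1. for every `K` there are `0 < κ ≤ 1` and `M₀` such that for all `M ≥ M₀` the multiplicities `m` for which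
   `AllDegrees k m` holds for EVERY `k ≥ 10` have the proportion at least `c` in all the sequences of `SparseExceptions`, up
   to `M ^ (1 - κ)`;
2. for all large `M` these are at least `c M / 2` of the multiplicities `m < M`;
3. for all large `M` these are at least `c π(M) / 2` of the prime multiplicities `m ≤ M`. -/
theorem result : ∃ c : ℝ, 0 < c ∧ c ≤ 1 ∧
    (∀ K : ℕ, ∃ κ : ℝ, 0 < κ ∧ κ ≤ 1 ∧ ∃ M₀ : ℕ, ∀ M : ℕ, M₀ ≤ M →
      SparseExceptions κ K M (1 - c) (fun m => ∀ k : ℕ, 10 ≤ k → AllDegrees k m)) ∧
    (∃ M₁ : ℕ, ∀ M : ℕ, M₁ ≤ M →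
      c / 2 * M ≤ ({m : ℕ | m < M ∧ 0 < m ∧ ∀ k : ℕ, 10 ≤ k → AllDegrees k m}.ncard : ℝ)) ∧
    (∃ M₁ : ℕ, ∀ M : ℕ, M₁ ≤ M →
      c / 2 * (Nat.primeCounting M : ℝ) ≤
        ({p : ℕ | p ≤ M ∧ p.Prime ∧ ∀ k : ℕ, 10 ≤ k → AllDegrees k p}.ncard : ℝ)) := by
  obtain ⟨c, hc, hc1, h⟩ := Pool.Agent.Q54.FM.all_points
  obtain ⟨h1, h2⟩ := Pool.Agent.Q54.FM.density_of_sparse hc _ (h _ (Pool.Agent.Q54.FM.inputs.mono allDegrees_of) 1)
  refine ⟨c, hc, hc1, fun K => ?_, h1, h2⟩
  obtain ⟨κ, hκ, hκ1, M₀, -, h'⟩ := h _ (Pool.Agent.Q54.FM.inputs.mono allDegrees_of) K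
  exact ⟨κ, hκ, hκ1, M₀, h'⟩

end Pool.Agent.Results.MP_1dafdd_ag.EqualMultiplicitiesInThePlane
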