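import Mathlib
import Pool.Agent.Q310.FP.All

set_option autoImplicit false

/-!
# General fat points in the plane: the failures of maximal conditions outside of an explicit list

Let `k ≥ 4` and let `m 1, …, m k ≥ 0` be any multiplicities, `d` any degree, `Γ` the scheme of general fat
points of the plane with these multiplicities.
* If `Γ` fails to impose maximal conditions in degree `d`, then twice a `(-1)`-curve `E` with
  `deg (L|E) ≤ -2` is a fixed part of the linear system `L`, or `L`, after the removal of disjoint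
  `(-1)`-curves, each taken once, and finitely many quadratic transformations, is a standard class
  `(d'; w')` of the same dimension which again fails to impose maximal conditions and satisfies
  `AllRem`.
* If `L` is the sum of disjoint `(-1)`-curves with multiplicities, one of them at least two, and of an
  orthogonal class of virtual dimension at least zero, then `Γ` fails to impose maximal conditions.

`AllRem` (`Pool.Agent.Q310.FP.AllRem`): the class is neither `Large` nor `Good`, is not decided by blocks,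
clusters and doubling, and satisfies `Rem4` (bounds of order four in the fourth multiplicity),
`AboveGap` (a gap above the Nagata bound) and `OneLarge` (one arbitrary multiplicity).
-/

namespace Pool.Agent.Results.MP_1dafdd_ag.PlaneClassification

open MvPolynomial Pool.Agent.TH167.SHDefs Pool.Agent.Q310.FP

/-- The scheme of the fat points fails to impose maximal conditions in degree `d`. -/
def Fails {k : ℕ} (P : Fin k → Fin 2 → ℂ) (m : Fin k → ℕ) (d : ℕ) : Prop :=
  (Module.finrank ℂ ↥(sys P d m) : ℤ) ≠
    max 0 (((d + 2).choose 2 : ℤ) - ∑ i, ((m i + 1).choose 2 : ℤ))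

theorem fails_iff {k : ℕ} (P : Fin k → Fin 2 → ℂ) (m : Fin k → ℕ) (d : ℕ) :
    Fails P m d ↔ Special P d m := by
  unfold Fails Special dimL virtdim
  constructor
  · intro h1 h2
    apply h1
    omega
  · intro h1 h2
    apply h1
    omega

theorem result : ∃ N0 : ℕ, ∀ k : ℕ, 4 ≤ k → ∀ (m : Fin k → ℕ) (d : ℕ),
    ∃ F : MvPolynomial (Fin k × Fin 2) ℂ, F ≠ 0 ∧
      ∀ P : Fin k → Fin 2 → ℂ, eval (fun ij : Fin k × Fin 2 => P ij.1 ij.2) F ≠ 0 →
        (Fails P m d →
          (∃ (G : MvPolynomial (Fin 3) ℂ) (e : ℕ) (u : Fin k → ℕ),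
            MinusOne P G e u ∧ inter d m e u ≤ -2 ∧ ∀ f ∈ sys P d m, G ^ 2 ∣ f) ∨
          ∃ (d'' : ℕ) (w'' : Fin k → ℕ) (s : ℕ) (G : Fin s → MvPolynomial (Fin 3) ℂ)
            (e : Fin s → ℕ) (u : Fin s → Fin k → ℕ) (d' : ℕ) (w' : Fin k → ℕ),
            Decomp P d m d'' w'' G e u (fun _ => 1) ∧
            Relation.ReflTransGen Quadratic (d'', w'') (d', w') ∧ Standard d' w' ∧
            dimL P d' w' = dimL P d m ∧ Fails P w' d' ∧ AllRem N0 d' w') ∧
        (MinusOneSpecial P d m → Fails P m d) := by
  obtain ⟨N0, hN0⟩ := all_or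
  refine ⟨N0, fun k hk m d => ?_⟩
  obtain ⟨F1, hF1, h1⟩ := segre_rem hk (hN0 k hk) d m
  obtain ⟨F2, hF2, h2⟩ := hh_rem hk (hN0 k hk) d m
  refine ⟨F1 * F2, mul_ne_zero hF1 hF2, fun P hP => ?_⟩
  rw [map_mul] at hP
  refine ⟨fun hf => ?_, fun hm => (fails_iff P m d).2 ((h2 P (right_ne_zero_of_mul hP)).1 hm)⟩
  rcases h1 P (left_ne_zero_of_mul hP) ((fails_iff P m d).1 hf) with h |
    ⟨d'', w'', s, G, e, u, d', w', a1, a2, a3, a4, a5, a6⟩
  · exact Or.inl h
  · exact Or.inr ⟨d'', w'', s, G, e, u, d', w', a1, a2, a3, a4, (fails_iff P w' d').2 a5, a6⟩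

end Pool.Agent.Results.MP_1dafdd_ag.PlaneClassification
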