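import Mathlib
import Pool.Agent.Q78.GW.Final

set_option autoImplicit false

/-!
# The dimension of the space of forms with general fat points is the naive one up to a constant

Let `r ≥ 1`, let `m 1, …, m k` be arbitrary multiplicities and let `d` be any degree. Let `ν y` be
the number `binom (y + r - 2) (r - 1)` of the conditions by which a point of multiplicity `y`
exceeds a point of multiplicity `y - 1`, and let `B` be the sum of the numbers `binom (ν y) 2` over
the different multiplicities `y` (it is enough to take a set `Y` of numbers `y` such that every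
multiplicity is one of the numbers `y` and `y - 1`). For `k` general points of `ℙ^r` the dimension
of the space of forms of degree `d` with these multiplicities is zero or at most
`(naive dimension) + B`, and the fat point scheme imposes maximal conditions if the naive
dimension is at most `- B`, or if it is larger than `(ν μ - 1) * binom (μ + r - 1) r`, where `μ` is
the largest multiplicity. So the scheme can fail to impose maximal conditions only if the naive
dimension lies in a window which depends only on the different multiplicities, but neither on the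
number of the points nor on the degree.

The proof: at generic points the leading forms of a system at one of the points are a subspace of
the forms in `r` variables; the derivations of the base field move the points; and a subspace which
is stable under the movements of all the other points is stable under the general linear group and
is therefore everything. So this space of leading forms grows whenever the multiplicities of
suitable other points are lowered.

The points are `(1 : P i 0 : … : P i (r - 1))`.
-/

namespace Pool.Agent.Results.MP_1dafdd_ag.SuperabundanceBound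

open MvPolynomial

/-- The dimension of the space of the forms of degree `d` in `r + 1` variables which vanish to order
at least `m i` at the point `(1 : P i 0 : … : P i (r - 1))` for every `i`. -/
noncomputable def dimForms {r k : ℕ} (m : Fin k → ℕ) (P : Fin k → Fin r → ℂ) (d : ℕ) : ℤ :=
  (Module.finrank ℂ
    ↥(MvPolynomial.homogeneousSubmodule (Fin (r + 1)) ℂ d ⊓
      Submodule.restrictScalars ℂ
        (⨅ i : Fin k, (Ideal.span (Set.range fun j : Fin r =>
          (X j.succ - C (P i j) * X 0 : MvPolynomial (Fin (r + 1)) ℂ))) ^ (m i))) : ℤ)

/-- The naive dimension of this space. -/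
def naive (r : ℕ) {k : ℕ} (m : Fin k → ℕ) (d : ℕ) : ℤ :=
  (Nat.choose (d + r) r : ℤ) - ∑ i, (Nat.choose (m i + r - 1) r : ℤ)

/-- The sum of the numbers `binom (ν y) 2`, `ν y = binom (y + r - 2) (r - 1)`, over `y ∈ Y`. -/
def bound (r : ℕ) (Y : Finset ℕ) : ℤ :=
  ∑ y ∈ Y, (Nat.choose (Nat.choose (y + r - 2) (r - 1)) 2 : ℤ)

theorem result (r k : ℕ) (hr : 1 ≤ r) (m : Fin k → ℕ) (d : ℕ) :
    ∃ F : MvPolynomial (Fin k × Fin r) ℂ, F ≠ 0 ∧
      ∀ P : Fin k → Fin r → ℂ,
        MvPolynomial.eval (fun ij : Fin k × Fin r => P ij.1 ij.2) F ≠ 0 →
        (∀ Y : Finset ℕ, (∀ i, 2 ≤ m i → m i ∈ Y ∨ m i + 1 ∈ Y) →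
          (dimForms m P d ≠ 0 → dimForms m P d ≤ naive r m d + bound r Y) ∧
          (naive r m d ≤ - bound r Y → dimForms m P d = max 0 (naive r m d))) ∧
        (∀ μ : ℕ, (∀ i, m i ≤ μ) →
          ((Nat.choose (μ + r - 2) (r - 1) : ℤ) - 1) * (Nat.choose (μ + r - 1) r : ℤ) <
            naive r m d →
          dimForms m P d = max 0 (naive r m d)) := by
  obtain ⟨E, rfl⟩ : ∃ E, r = E + 1 := ⟨r - 1, by omega⟩
  obtain ⟨K0, i1, i2, P0, F, hP0, hF, hF'⟩ := Q78.GW.general_dim E k m d
  have e1 : ∀ a : ℕ, a + (E + 1) - 1 = a + E := fun a => by omega
  have e2 : E + 1 - 1 = E := by omega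
  have e3 : d + (E + 1) = d + E + 1 := by omega
  have hnv : naive (E + 1) m d = Q78.GW.nv E m d := by
    unfold naive Q78.GW.nv
    simp only [e1, e3]
  have hbd : ∀ Y, bound (E + 1) Y = Q78.GW.bd E Y := by
    intro Y
    unfold bound Q78.GW.bd
    refine Finset.sum_congr rfl fun y _ => ?_
    rw [e2]
    rcases Nat.eq_zero_or_pos y with h | h
    · subst h
      have h1 : (0 - 1 + E).choose E = 1 := by
        rw [Nat.zero_sub, zero_add, Nat.choose_self]
      rw [h1]
      rcases Nat.eq_zero_or_pos E with h2 | h2
      · subst h2
        rfl
      · have h3 : (0 + (E + 1) - 2).choose E = 0 := Nat.choose_eq_zero_of_lt (by omega)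
        rw [h3]
        rfl
    · have e4 : y + (E + 1) - 2 = y - 1 + E := by omega
      rw [e4]
  refine ⟨F, hF, fun P hP => ?_⟩
  have hdim : dimForms m P d = (Module.finrank K0 ↥(Q78.GW.Lw d P0 m) : ℤ) := by
    rw [← hF' P hP]
    rfl
  rw [hdim, hnv]
  refine ⟨fun Y hY => ?_, fun μ hμ h => ?_⟩
  · rw [hbd]
    exact Q78.GW.gen_bound hP0 m d Y hY
  · refine Q78.GW.gen_indep hP0 m d μ hμ ?_
    rw [e1, e2] at h
    rcases Nat.eq_zero_or_pos μ with h0 | h0
    · subst h0
      have h1 : (0 + E).choose (E + 1) = 0 := Nat.choose_eq_zero_of_lt (by omega)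
      rw [h1] at h ⊢
      simpa using h
    · have e4 : μ + (E + 1) - 2 = μ - 1 + E := by omega
      rwa [e4] at h

end Pool.Agent.Results.MP_1dafdd_ag.SuperabundanceBound
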